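import Mathlib
import Pool.Agent.H6.Joint

namespace Pool.Agent.Results.MP_d9ed39_co.Counter

/-- A simple matroid: no loops and no parallel pairs (the case `x = y` excludes loops). -/
def Simple {α : Type} (M : Matroid α) : Prop := ∀ x ∈ M.E, ∀ y ∈ M.E, M.Indep {x, y}

/-- A line is a flat of rank two. -/
def IsLine {α : Type} (M : Matroid α) (l : Set α) : Prop := M.IsFlat l ∧ M.eRk l = 2

/-- The set of `n`-dimensional joints of a set of lines. -/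
def joints {α : Type} (M : Matroid α) (𝔏 : Finset (Set α)) (n : ℕ) : Set α :=
  {x ∈ M.E | ∃ l : Fin n → Set α, (∀ i, l i ∈ 𝔏 ∧ x ∈ l i) ∧ (n + 1 : ℕ∞) ≤ M.eRk (⋃ i, l i)}

theorem result (n : ℕ) (hn : 4 ≤ n) : ∃ ε > (0 : ℝ), ∃ L₀ : ℕ, ∀ (α : Type) (M : Matroid α),
    M.E.Finite → Simple M → ∀ 𝔏 : Finset (Set α), (∀ l ∈ 𝔏, IsLine M l) → L₀ ≤ 𝔏.card →
      ((joints M 𝔏 n).ncard : ℝ) < (𝔏.card : ℝ) ^ (2 - ε) := by
  refine ⟨1 / 4, by norm_num, (n + 2) ^ 12, fun α M hf hs 𝔏 hL h => ?_⟩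
  refine (Pool.Agent.H6.Joint.real_bound hf hs 𝔏 hL (j := 1) hn).trans_lt ?_
  have h0 : (0 : ℝ) < 𝔏.card := by exact_mod_cast lt_of_lt_of_le (by positivity) h
  have h1 : (n + 2 : ℝ) ≤ (𝔏.card : ℝ) ^ (1 / 12 : ℝ) := by
    rw [one_div, Real.le_rpow_inv_iff_of_pos (by positivity) h0.le (by norm_num)]
    exact_mod_cast h
  rw [show (2 - 1 / 4 : ℝ) = 1 / 12 + (1 + ((1 : ℕ) + 1 : ℝ) / (2 * (1 : ℕ) + 1)) by norm_num,
    Real.rpow_add h0 (1 / 12)]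
  exact mul_lt_mul_of_pos_right (by linarith) (by positivity)

end Pool.Agent.Results.MP_d9ed39_co.Counter
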